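import Pool.Agent.Helper59.AN.Goals
import Pool.Agent.Helper30.NU.NAT
import Pool.Agent.Helper77.NU.FN1
import Pool.Agent.Helper96.NU.FN2
import Pool.Agent.Helper8.NU.PAR
import Pool.Agent.Helper60.NU.EX1

/-!
MP_4137ca_lc, packet INO: the value of membership in an open set.
-/

set_option autoImplicit false

noncomputable section

namespace AN.PkINO

open Pool.Agent.Helper97.Ku NU BSet

variable {L : Type} [CompleteBooleanAlgebra L]

/-- the matrix of the quantifiers in `inoV` -/
def T (o c k x y n s t q : BSet L) : L :=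
  n.mem o ⊓ (lstV s n ⊓ (lstV t n ⊓ (agbV n s x ⊓ (agbV n t y ⊓ (prV q s t ⊓ apV c k q)))))

theorem kpr_mem_cN (γ : ℕ → Finset ℕ → Finset ℕ → L) (k : ℕ) (s t : Finset ℕ) :
    (kpr (nn k) (kpr (fsN s) (fsN t))).mem (cN γ) = γ k s t := by
  have hPAR := PkPAR.par L
  have hNAT := PkNAT.nat L
  have hFN1 := PkFN1.fn1 PkNAT.nat L
  have key : ∀ p : ℕ × Finset ℕ × Finset ℕ,
      (kpr (nn k) (kpr (fsN s) (fsN t))).eq (kpr (nn p.1) (kpr (fsN p.2.1) (fsN p.2.2)))
        = (bo (k = p.1) ⊓ (bo (s = p.2.1) ⊓ bo (t = p.2.2)) : L) := by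
    intro p
    rw [hPAR.2.1, hPAR.2.1, hNAT.2.2.1, hFN1.2.2.1, hFN1.2.2.1]
  change (⨆ p : ℕ × Finset ℕ × Finset ℕ, (γ p.1 p.2.1 p.2.2 ⊓
    (kpr (nn k) (kpr (fsN s) (fsN t))).eq (kpr (nn p.1) (kpr (fsN p.2.1) (fsN p.2.2))))) = _
  apply le_antisymm
  · refine iSup_le fun p => ?_
    rw [key p]
    obtain ⟨k', s', t'⟩ := p
    by_cases h1 : k = k'
    · by_cases h2 : s = s'
      · by_cases h3 : t = t'
        · subst h1 h2 h3
          exact inf_le_left
        · simp [bo, h3]
      · simp [bo, h2]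
    · simp [bo, h1]
  · refine le_trans ?_ (le_iSup _ (k, s, t))
    rw [key (k, s, t)]
    simp [bo]

theorem ino (_ : G_RN) : G_INO := by
  intro L _ γ k a y
  have hRN := (‹G_RN›) L
  have hPAR := PkPAR.par L
  have hNAT := PkNAT.nat L
  have hFN1 := PkFN1.fn1 PkNAT.nat L
  have hFN2 := PkFN2.fn2 PkNAT.nat (PkFN1.fn1 PkNAT.nat) L
  have hEX1 := PkEX1.ex1 L
  have hRN5 := hRN.2.2.2.2
  have hap : ∀ q : BSet L, apV (cN γ) (nn k) q = (kpr (nn k) q).mem (cN γ) :=
    fun q => hPAR.2.2 _ _ _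
  have hpr : ∀ q s t : BSet L, prV q s t = q.eq (kpr s t) := fun q s t => hPAR.1 _ _ _
  -- the value at names
  have hval : ∀ (n : ℕ) (s t : Finset ℕ),
      T omN (cN γ) (nn k) (rN a) (rN y) (nn n) (fsN s) (fsN t) (kpr (fsN s) (fsN t))
        = bo (LastN s n ∧ LastN t n) ⊓ (γ k s t ⊓ (agr n s a ⊓ agr n t y)) := by
    intro n s t
    unfold T
    have e1 : (nn n : BSet L).mem omN = ⊤ := by
      rw [hNAT.2.1]
      rw [eq_top_iff]
      refine le_trans ?_ (le_iSup _ n)
      rw [BSet.eq_refl]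
    rw [e1, top_inf_eq, hFN2.2.1, hFN2.2.1, hRN5, hRN5, hpr, BSet.eq_refl, top_inf_eq, hap,
      kpr_mem_cN, ← PkFN2.bo_inf]
    ac_rfl
  change (⨆ n : BSet L, ⨆ s : BSet L, ⨆ t : BSet L, ⨆ q : BSet L,
    T omN (cN γ) (nn k) (rN a) (rN y) n s t q) = ⨆ n : ℕ, ⨆ s : Finset ℕ, ⨆ t : Finset ℕ,
    (bo (LastN s n ∧ LastN t n) ⊓ (γ k s t ⊓ (agr n s a ⊓ agr n t y)))
  apply le_antisymm
  · refine iSup_le fun n => iSup_le fun s => iSup_le fun t => iSup_le fun q => ?_
    -- extensionality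
    have hE1 : BSet.Ext (fun n => T omN (cN γ) (nn k) (rN a) (rN y) n s t q) :=
      (Ext.mem_left _).inf (((hEX1.2.2.1 s).2).inf (((hEX1.2.2.1 t).2).inf
        (((hEX1.2.2.2.1 s (rN a)).1).inf (((hEX1.2.2.2.1 t (rN y)).1).inf
          (Ext.const _)))))
    have hE2 : ∀ n, BSet.Ext (fun s => T omN (cN γ) (nn k) (rN a) (rN y) n s t q) := fun n => by
      have hp : BSet.Ext (fun s => prV q s t) := by
        have : (fun s : BSet L => prV q s t) = fun s => q.eq (kpr s t) := funext fun s => hpr _ _ _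
        rw [this]
        intro x x'
        refine le_trans (le_inf inf_le_right (le_trans inf_le_left ?_)) (BSet.eq_trans q (kpr x t) _)
        rw [hPAR.2.1, BSet.eq_refl, inf_top_eq]
      exact (Ext.const _).inf (((hEX1.2.2.1 n).1).inf ((Ext.const _).inf
        (((hEX1.2.2.2.1 n (rN a)).2.1).inf ((Ext.const _).inf (hp.inf (Ext.const _))))))
    have hE3 : ∀ n s, BSet.Ext (fun t => T omN (cN γ) (nn k) (rN a) (rN y) n s t q) := fun n s => by
      have hp : BSet.Ext (fun t => prV q s t) := by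
        have : (fun t : BSet L => prV q s t) = fun t => q.eq (kpr s t) := funext fun t => hpr _ _ _
        rw [this]
        intro x x'
        refine le_trans (le_inf inf_le_right (le_trans inf_le_left ?_)) (BSet.eq_trans q (kpr s x) _)
        rw [hPAR.2.1, BSet.eq_refl, top_inf_eq]
      exact (Ext.const _).inf ((Ext.const _).inf (((hEX1.2.2.1 n).1).inf ((Ext.const _).inf
        (((hEX1.2.2.2.1 n (rN y)).2.1).inf (hp.inf (Ext.const _))))))
    have hE4 : ∀ n s t, BSet.Ext (fun q => T omN (cN γ) (nn k) (rN a) (rN y) n s t q) :=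
      fun n s t => by
        have hp : BSet.Ext (fun q => prV q s t) := by
          have : (fun q : BSet L => prV q s t) = fun q => q.eq (kpr s t) :=
            funext fun q => hpr _ _ _
          rw [this]
          exact Ext.eq_left _
        exact (Ext.const _).inf ((Ext.const _).inf ((Ext.const _).inf ((Ext.const _).inf
          ((Ext.const _).inf (hp.inf ((hEX1.2.1 (cN γ) (nn k)).2.2))))))
    -- step 1
    have h1 : T omN (cN γ) (nn k) (rN a) (rN y) n s t q ≤ ⨆ n' : ℕ, n.eq (nn n') := by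
      refine le_trans inf_le_left ?_
      rw [hNAT.2.1]
    rw [← inf_eq_right.2 h1, iSup_inf_eq]
    refine iSup_le fun n' => ?_
    refine le_trans (hE1 n (nn n')) ?_
    refine le_trans ?_ (le_iSup _ n')
    beta_reduce
    -- step 2
    have h2 : T omN (cN γ) (nn k) (rN a) (rN y) (nn n') s t q
        ≤ ⨆ s' : Finset ℕ, ⨆ _ : LastN s' n', s.eq (fsN s') :=
      le_trans (le_trans inf_le_right inf_le_left) (hFN2.1 n' s)
    rw [← inf_eq_right.2 h2, iSup_inf_eq]
    refine iSup_le fun s' => ?_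
    refine le_trans ?_ (le_iSup _ s')
    rw [iSup_inf_eq]
    refine iSup_le fun hs' => ?_
    refine le_trans (hE2 (nn n') s (fsN s')) ?_
    beta_reduce
    -- step 3
    have h3 : T omN (cN γ) (nn k) (rN a) (rN y) (nn n') (fsN s') t q
        ≤ ⨆ t' : Finset ℕ, ⨆ _ : LastN t' n', t.eq (fsN t') :=
      le_trans (le_trans inf_le_right (le_trans inf_le_right inf_le_left)) (hFN2.1 n' t)
    rw [← inf_eq_right.2 h3, iSup_inf_eq]
    refine iSup_le fun t' => ?_
    refine le_trans ?_ (le_iSup _ t')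
    rw [iSup_inf_eq]
    refine iSup_le fun ht' => ?_
    refine le_trans (hE3 (nn n') (fsN s') t (fsN t')) ?_
    beta_reduce
    -- step 4
    have h4 : T omN (cN γ) (nn k) (rN a) (rN y) (nn n') (fsN s') (fsN t') q
        ≤ q.eq (kpr (fsN s') (fsN t')) := by
      refine le_trans (b := prV q (fsN s') (fsN t')) ?_ (hpr _ _ _).le
      exact le_trans inf_le_right (le_trans inf_le_right (le_trans inf_le_right
        (le_trans inf_le_right (le_trans inf_le_right inf_le_left))))
    rw [← inf_eq_right.2 h4]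
    refine le_trans (hE4 (nn n') (fsN s') (fsN t') q (kpr (fsN s') (fsN t'))) ?_
    exact (hval n' s' t').le
  · refine iSup_le fun n => iSup_le fun s => iSup_le fun t => ?_
    rw [← hval n s t]
    exact le_iSup_of_le (nn n) (le_iSup_of_le (fsN s) (le_iSup_of_le (fsN t)
      (le_iSup_of_le (kpr (fsN s) (fsN t)) le_rfl)))

end AN.PkINO
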